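import Pool.Agent.Lib_4426b5.Final

set_option autoImplicit false
set_option linter.unusedSectionVars false
set_option linter.unusedVariables false

/-!
An explicit length bound for the primitivity-blocking problem: a word which occurs in some
cyclically reduced primitive word occurs in one of bounded length.
-/

namespace Pool.Agent.Lib_4426b5

variable {α : Type} [DecidableEq α]

/-- a cyclically reduced primitive word together with an automorphism of norm at most K -/
def PrimB (K : ℕ) (w : List (α × Bool)) : Prop :=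
  w ≠ [] ∧ FreeGroup.IsCyclicallyReduced w ∧
    ∃ (φ : MulAut (FreeGroup α)) (i : α), FreeGroup.mk w = φ (FreeGroup.of i) ∧
      ∀ j, (φ (FreeGroup.of j)).norm ≤ K

theorem PrimB.prim {K : ℕ} {w : List (α × Bool)} (h : PrimB K w) : Prim w := by
  obtain ⟨h1, h2, φ, i, h3, _⟩ := h
  exact ⟨h1, h2, φ, i, h3⟩

theorem PrimB.mono {K K' : ℕ} (hK : K ≤ K') {w : List (α × Bool)} (h : PrimB K w) :
    PrimB K' w := by
  obtain ⟨h1, h2, φ, i, h3, h4⟩ := h
  exact ⟨h1, h2, φ, i, h3, fun j => le_trans (h4 j) hK⟩

theorem PrimB.length_le {K : ℕ} {w : List (α × Bool)} (h : PrimB K w) : w.length ≤ K := by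
  obtain ⟨h1, h2, φ, i, h3, h4⟩ := h
  have h5 := h4 i
  rw [← h3] at h5
  unfold FreeGroup.norm at h5
  rwa [toWord_mk_red (isReduced_iff.1 h2.isReduced)] at h5

theorem norm_κ (a : α × Bool) (A : Finset (α × Bool)) (c : α × Bool) : (κ a A c).norm ≤ 1 := by
  unfold κ
  split
  · rw [FreeGroup.norm_inv_eq]
    exact FreeGroup.norm_mk_le
  · rw [FreeGroup.norm_one]
    exact Nat.zero_le _

theorem norm_mul3 (x y z : FreeGroup α) : (x * y * z).norm ≤ x.norm + y.norm + z.norm := by
  have h1 := FreeGroup.norm_mul_le (x * y) z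
  have h2 := FreeGroup.norm_mul_le x y
  omega

theorem norm_ρ_mk (a : α × Bool) (A : Finset (α × Bool)) (L : List (α × Bool)) :
    (ρ a A (FreeGroup.mk L)).norm ≤ 3 * L.length := by
  induction L with
  | nil =>
    have : (FreeGroup.mk [] : FreeGroup α) = 1 := rfl
    rw [this, map_one, FreeGroup.norm_one]
    exact Nat.zero_le _
  | cons c L ih =>
    rw [mk_cons, map_mul, ρ_letter]
    have h1 := FreeGroup.norm_mul_le (κ a A c * FreeGroup.mk [c] * (κ a A (ng c))⁻¹)
      (ρ a A (FreeGroup.mk L))
    have h2 := norm_mul3 (κ a A c) (FreeGroup.mk [c]) (κ a A (ng c))⁻¹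
    have h3 := norm_κ a A c
    have h4 := norm_κ a A (ng c)
    have h5 : (FreeGroup.mk [c] : FreeGroup α).norm ≤ 1 := FreeGroup.norm_mk_le
    rw [FreeGroup.norm_inv_eq] at h2
    rw [List.length_cons]
    omega

theorem norm_ρ (a : α × Bool) (A : Finset (α × Bool)) (x : FreeGroup α) :
    (ρ a A x).norm ≤ 3 * x.norm := by
  have h := norm_ρ_mk a A x.toWord
  rwa [FreeGroup.mk_toWord] at h

theorem primB_J {K : ℕ} (a : α × Bool) (A : Finset (α × Bool)) (hOk : Ok a A) {h : α × Bool}
    {s : List (α × Bool)} (hw : PrimB K (h :: s))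
    (hbad : ∀ y z, Fact (h :: s) [y, z] → ¬ Bad a A y z) :
    PrimB (5 * K) (J a A (h :: s) h) := by
  have h0 := prim_J a A hOk hw.prim hbad
  have h3 := mk_J a A (h :: s) h rfl
  have hK : 1 ≤ K := by
    have := hw.length_le
    rw [List.length_cons] at this
    omega
  obtain ⟨_, _, φ, i, hφ, hb⟩ := hw
  refine ⟨h0.1, h0.2.1, MulAut.conj (κ a A h)⁻¹ * (ρE a A hOk * φ), i, ?_, ?_⟩
  · rw [h3, hφ]
    show _ = (κ a A h)⁻¹ * ρ a A (φ (FreeGroup.of i)) * (κ a A h)⁻¹⁻¹
    rw [inv_inv]
  · intro j
    show ((κ a A h)⁻¹ * ρ a A (φ (FreeGroup.of j)) * (κ a A h)⁻¹⁻¹).norm ≤ _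
    have h1 := norm_mul3 (κ a A h)⁻¹ (ρ a A (φ (FreeGroup.of j))) (κ a A h)⁻¹⁻¹
    have h2 := norm_ρ a A (φ (FreeGroup.of j))
    have h4 := norm_κ a A h
    have h5 := hb j
    rw [inv_inv, FreeGroup.norm_inv_eq] at h1
    rw [inv_inv]
    omega

theorem primB_singleton (c : α × Bool) : PrimB 1 [c] := by
  obtain ⟨i, b⟩ := c
  refine ⟨by simp, by simp, ?_⟩
  cases b with
  | true =>
    refine ⟨1, i, rfl, fun j => ?_⟩
    show (FreeGroup.mk [(j, true)] : FreeGroup α).norm ≤ 1
    exact FreeGroup.norm_mk_le
  | false =>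
    let f : FreeGroup α →* FreeGroup α := FreeGroup.lift (fun k => (FreeGroup.of k)⁻¹)
    have hof : ∀ k, f (FreeGroup.of k) = (FreeGroup.of k)⁻¹ := by
      intro k
      show FreeGroup.lift _ (FreeGroup.of k) = _
      rw [FreeGroup.lift_apply_of]
    have hf : ∀ x, f (f x) = x := by
      intro x
      have : f.comp f = MonoidHom.id _ := by
        apply FreeGroup.ext_hom
        intro k
        show f (f (FreeGroup.of k)) = FreeGroup.of k
        rw [hof, map_inv, hof, inv_inv]
      exact DFunLike.congr_fun this x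
    let ι : MulAut (FreeGroup α) :=
      { toFun := f, invFun := f, left_inv := hf, right_inv := hf, map_mul' := map_mul f }
    refine ⟨ι, i, ?_, fun j => ?_⟩
    · show _ = f (FreeGroup.of i)
      rw [hof]
      exact mk_ng (i, true)
    · show (f (FreeGroup.of j)).norm ≤ 1
      rw [hof, FreeGroup.norm_inv_eq]
      exact FreeGroup.norm_mk_le

theorem cl_bound [Fintype α] {B : ℕ} (k : ℕ) : ∀ s ∈ cl α B k,
    ∃ w, PrimB (5 ^ k) w ∧ Fact w s.1 ∧ ∀ y z, Fact w [y, z] ↔ (y, z) ∈ s.2 := by
  induction k with
  | zero =>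
    intro s hs
    rw [cl_zero, mem_base] at hs
    obtain ⟨c, rfl⟩ := hs
    refine ⟨[c], by simpa using primB_singleton c, ⟨B, ?_⟩, fun y z => pair_aux c y z⟩
    rw [pw_singleton]
  | succ k ih =>
    have h5 : 5 ^ k ≤ 5 ^ (k + 1) := Nat.pow_le_pow_right (by norm_num) (Nat.le_succ k)
    intro s hs
    rw [cl_succ, List.mem_append, List.mem_flatMap] at hs
    rcases hs with hs | ⟨s', hs', hs⟩
    · obtain ⟨w, h1, h2, h3⟩ := ih s hs
      exact ⟨w, h1.mono h5, h2, h3⟩
    · obtain ⟨w, h1, h2, h3⟩ := ih s' hs'
      rw [mem_succs] at hs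
      rcases hs with rfl | rfl | ⟨m, hs⟩
      · exact ⟨w, h1.mono h5, h2.inf (List.tail_suffix s'.1).isInfix, h3⟩
      · exact ⟨w, h1.mono h5, h2.inf (List.dropLast_prefix s'.1).isInfix, h3⟩
      · rw [mem_one] at hs
        obtain ⟨hOk, hbad, _, rfl⟩ := hs
        cases w with
        | nil => exact absurd rfl h1.1
        | cons h s =>
          refine ⟨J m.1 m.2 (h :: s) h, ?_, fact_ins m.1 m.2 h2, ?_⟩
          · have := primB_J m.1 m.2 hOk h1 (by
              intro y z hf
              exact hbad (y, z) ((h3 y z).1 hf))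
            rw [pow_succ, mul_comm]
            exact this
          · intro y z
            rw [fact_pair_iff, mem_δ]
            constructor
            · rintro ⟨y', z', h4, h5⟩
              exact ⟨y', z', (h3 _ _).1 h4, h5⟩
            · rintro ⟨y', z', h4, h5⟩
              exact ⟨y', z', (h3 _ _).2 h4, h5⟩

/-- a subword of a power is a subword of a short power -/
theorem fact_short (w : List (α × Bool)) (hw : 1 ≤ w.length) : ∀ (m : ℕ) (v : List (α × Bool)),
    v <:+: pw w m → v <:+: pw w (v.length + 1) := by
  intro m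
  induction m with
  | zero =>
    intro v hv
    have : v = [] := by
      have h := hv.length_le
      rw [pw_zero, List.length_nil] at h
      exact List.length_eq_zero_iff.1 (by omega)
    subst this
    exact List.nil_infix
  | succ m ih =>
    intro v hv
    obtain ⟨a, b, hab⟩ := hv
    by_cases haw : w.length ≤ a.length
    · have h1 : w <+: a := by
        apply List.prefix_of_prefix_length_le (l₃ := pw w (m + 1)) _ _ haw
        · rw [pw_succ]; exact List.prefix_append _ _
        · rw [← hab, List.append_assoc]; exact List.prefix_append _ _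
      obtain ⟨a', rfl⟩ := h1
      apply ih v
      refine ⟨a', b, ?_⟩
      rw [pw_succ] at hab
      simp only [List.append_assoc] at hab ⊢
      exact List.append_cancel_left hab
    · rcases Nat.le_total (m + 1) (v.length + 1) with h | h
      · obtain ⟨d, hd⟩ := Nat.exists_eq_add_of_le h
        rw [hd, pw_add]
        exact List.IsInfix.trans ⟨a, b, hab⟩ (List.prefix_append _ _).isInfix
      · obtain ⟨d, hd⟩ := Nat.exists_eq_add_of_le h
        have h2 : a ++ v <+: pw w (v.length + 1) := by
          apply List.prefix_of_prefix_length_le (l₃ := pw w (m + 1)) _ _ _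
          · rw [← hab]; exact List.prefix_append _ _
          · rw [hd, pw_add w (v.length + 1) d]; exact List.prefix_append _ _
          · rw [List.length_append, pw_length]
            nlinarith
        exact (List.suffix_append a v).isInfix.trans h2.isInfix

/-- Every power of a cyclically reduced primitive word occurs in some cyclically reduced
primitive word, with a bound for the length. -/
theorem long_fact_bound [Nontrivial α] {K0 : ℕ} {w : List (α × Bool)} (hw : PrimB K0 w) (N : ℕ) :
    ∃ w2, Prim w2 ∧ pw w N <:+: w2 ∧ w2.length ≤ (2 * K0 + N + 5) * K0 := by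
  have hwK := hw.length_le
  obtain ⟨hne, hcyc, φ, i, hφ, hKb⟩ := hw
  have hlen : 1 ≤ w.length := List.length_pos_iff.2 hne
  obtain ⟨j, hj⟩ := exists_ne i
  set Y := (φ (FreeGroup.of j)).toWord with hY
  set K := Y.length with hK
  set M := 2 * K + N + 4 with hM
  obtain ⟨ψ, hψ⟩ := trans_pow hj.symm M
  obtain ⟨X1, c, Y1, h1, h2, h3⟩ := cancel_decomp _ (pw w M) Y le_rfl (pw_chain hcyc M)
    (toWord_chain _)
  have hmkL : FreeGroup.mk (X1 ++ Y1) = (φ * ψ) (FreeGroup.of j) := by
    rw [MulAut.mul_apply, hψ, map_mul, map_pow, ← hφ, ← mk_pw]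
    have e1 : φ (FreeGroup.of j) = FreeGroup.mk Y := by rw [hY, FreeGroup.mk_toWord]
    rw [e1, h1, h2, FreeGroup.mul_mk, ← FreeGroup.mul_mk, ← FreeGroup.mul_mk,
      ← FreeGroup.mul_mk, ← FreeGroup.mul_mk, ← FreeGroup.inv_mk]
    group
  set L := X1 ++ Y1 with hL
  have hLred : FreeGroup.IsReduced L := isReduced_iff.2 h3
  set g := FreeGroup.reduceCyclically.conjugator L with hg
  set q := FreeGroup.reduceCyclically L with hq
  have hqc : FreeGroup.IsCyclicallyReduced q :=
    FreeGroup.reduceCyclically.isCyclicallyReduced hLred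
  have heq : g ++ q ++ FreeGroup.invRev g = L :=
    FreeGroup.reduceCyclically.conj_conjugator_reduceCyclically L
  have hX1 : X1.length + c.length = M * w.length := by
    have := congrArg List.length h1
    rw [pw_length, List.length_append] at this
    omega
  have hY1 : c.length + Y1.length = K := by
    have := congrArg List.length h2
    rw [List.length_append, FreeGroup.invRev_length] at this
    omega
  have hLlen : g.length + q.length + g.length = X1.length + Y1.length := by
    have := congrArg List.length heq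
    rw [List.length_append, List.length_append, FreeGroup.invRev_length, hL,
      List.length_append] at this
    exact this
  have hMw : (2 * K + N + 4) * w.length = 2 * K * w.length + (N + 4) * w.length := by ring
  have hKw : 2 * K ≤ 2 * K * w.length := by nlinarith
  have hNw : (N + 4) * w.length = (N + 1) * w.length + 3 * w.length := by ring
  rw [← hM] at hMw
  have hgX : g.length ≤ X1.length := by omega
  have hgpre : g <+: X1 := by
    apply List.prefix_of_prefix_length_le (l₃ := L) _ _ hgX
    · rw [← heq, List.append_assoc]; exact List.prefix_append _ _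
    · exact List.prefix_append _ _
  have hX1f : ∀ v, v <:+: X1 → Fact w v := by
    intro v hv
    refine ⟨M, hv.trans ?_⟩
    rw [h1]
    exact (List.prefix_append _ _).isInfix
  have hkey : g.length ≤ Y1.length + w.length := by
    by_contra hcon
    have hsuf : Y1 <:+ FreeGroup.invRev g := by
      apply List.suffix_of_suffix_length_le (l₃ := L)
      · exact List.suffix_append _ _
      · rw [← heq]; exact List.suffix_append _ _
      · rw [FreeGroup.invRev_length]; omega
    obtain ⟨s, hs⟩ := hsuf
    have hs_len : s.length + Y1.length = g.length := by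
      have := congrArg List.length hs
      rwa [List.length_append, FreeGroup.invRev_length] at this
    have hsX : s <:+ X1 := by
      have e1 : g ++ q ++ s = X1 := by
        rw [← hs, ← List.append_assoc] at heq
        exact List.append_cancel_right heq
      rw [← e1]
      exact List.suffix_append _ _
    have hginv : g = FreeGroup.invRev Y1 ++ FreeGroup.invRev s := by
      have e1 : g = FreeGroup.invRev (FreeGroup.invRev g) := by rw [FreeGroup.invRev_invRev]
      rw [e1, ← hs]
      unfold FreeGroup.invRev
      rw [List.map_append, List.reverse_append]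
    apply no_inverse_factor hcyc hlen (s := s) (by omega) (hX1f s hsX.isInfix)
    apply hX1f
    refine List.IsInfix.trans ?_ hgpre.isInfix
    rw [hginv]
    exact (List.suffix_append _ _).isInfix
  obtain ⟨X2, hX2⟩ := hgpre
  have hX2len : g.length + X2.length = X1.length := by
    have := congrArg List.length hX2
    rwa [List.length_append] at this
  have hqX : X2 ++ Y1 = q ++ FreeGroup.invRev g := by
    have e1 : g ++ (X2 ++ Y1) = g ++ (q ++ FreeGroup.invRev g) := by
      rw [← List.append_assoc, hX2, ← List.append_assoc, heq]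
    exact List.append_cancel_left e1
  have hfin : pw w N <:+: q := by
    rcases le_total q.length X2.length with h | h
    · have hqp : q <+: X2 := by
        apply List.prefix_of_prefix_length_le (l₃ := X2 ++ Y1) _ _ h
        · rw [hqX]; exact List.prefix_append _ _
        · exact List.prefix_append _ _
      have hqX1 : q <:+: pw w M := by
        rw [h1]
        refine hqp.isInfix.trans ?_
        rw [← hX2]
        exact (List.suffix_append g X2).isInfix.trans (List.prefix_append _ _).isInfix
      exact window w N M q hqX1 (by omega) hlen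
    · have hqp : X2 <+: q := by
        apply List.prefix_of_prefix_length_le (l₃ := X2 ++ Y1) _ _ h
        · exact List.prefix_append _ _
        · rw [hqX]; exact List.prefix_append _ _
      have hX2M : X2 <:+: pw w M := by
        rw [h1, ← hX2]
        exact (List.suffix_append g X2).isInfix.trans (List.prefix_append _ _).isInfix
      exact (window w N M X2 hX2M (by omega) hlen).trans hqp.isInfix
  have hKK : K ≤ K0 := hKb j
  have hqlen : q.length ≤ (2 * K0 + N + 5) * K0 := by
    have e1 : q.length ≤ M * w.length + K := by omega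
    have e2 : M * w.length ≤ (2 * K0 + N + 4) * K0 :=
      Nat.mul_le_mul (by omega) hwK
    have e3 : (2 * K0 + N + 5) * K0 = (2 * K0 + N + 4) * K0 + K0 := by ring
    omega
  refine ⟨q, ⟨?_, hqc, MulAut.conj (FreeGroup.mk g)⁻¹ * (φ * ψ), j, ?_⟩, hfin, hqlen⟩
  · intro hq0
    have e1 : FreeGroup.mk L = 1 := by
      rw [← heq, hq0, List.append_nil, ← FreeGroup.mul_mk, ← FreeGroup.inv_mk, mul_inv_cancel]
    rw [hmkL] at e1
    have e2 : FreeGroup.of j = 1 := (φ * ψ).injective (by rw [e1, map_one])
    exact FreeGroup.of_ne_one j e2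
  · show _ = (FreeGroup.mk g)⁻¹ * (φ * ψ) (FreeGroup.of j) * ((FreeGroup.mk g)⁻¹)⁻¹
    rw [← hmkL, ← heq, ← FreeGroup.mul_mk, ← FreeGroup.mul_mk, ← FreeGroup.inv_mk]
    group

/-- the number of steps of the search -/
def stepsOf (r n : ℕ) : ℕ := (2 * r + 1) ^ (2 * max n 2) * 2 ^ (4 * r ^ 2)

/-- A word which occurs in some cyclically reduced primitive word occurs in a short one. -/
theorem occ_short [Fintype α] [Nontrivial α] {v : List (α × Bool)} (h : Occ v) :
    ∃ w2, Prim w2 ∧ v <:+: w2 ∧
      w2.length ≤ (2 * 5 ^ stepsOf (Fintype.card α) v.length + v.length + 6) *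
        5 ^ stepsOf (Fintype.card α) v.length := by
  obtain ⟨T, hT⟩ := (occ_iff v).1 h
  have h1 := reach_iff_cl.1 hT
  obtain ⟨w, hw, ⟨m, hm⟩, _⟩ := cl_bound _ _ h1
  have hbd : bd (Fintype.card (α × Bool)) (Fintype.card (TT α)) (2 * max v.length 2)
      = stepsOf (Fintype.card α) v.length := by
    unfold bd stepsOf
    have e1 : Fintype.card (α × Bool) = 2 * Fintype.card α := by
      rw [Fintype.card_prod, Fintype.card_bool]; ring
    have e2 : Fintype.card (TT α) = 2 ^ (4 * Fintype.card α ^ 2) := by
      show Fintype.card (Finset ((α × Bool) × (α × Bool))) = _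
      rw [Fintype.card_finset, Fintype.card_prod, e1]
      congr 1
      ring
    rw [e1, e2]
  rw [hbd] at hw
  have hlen : 1 ≤ w.length := List.length_pos_iff.2 hw.1
  obtain ⟨w2, hp, hinf, hle⟩ := long_fact_bound hw (v.length + 1)
  exact ⟨w2, hp, (fact_short w hlen m v hm).trans hinf, hle⟩

theorem prim_iff_occ {w : List (α × Bool)} (hw : Prim w) : Occ w := by
  obtain ⟨_, hcyc, φ, i, hφ⟩ := hw
  have htw : (φ (FreeGroup.of i)).toWord = w := by
    rw [← hφ]
    exact toWord_mk_red (isReduced_iff.1 hcyc.isReduced)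
  refine ⟨φ, i, ?_, ?_⟩
  · rw [htw]
  · rw [htw]
    intro a ha b hb hab
    exact hab.2 ((hcyc.2 b hb a ha hab.1.symm).symm)

theorem occ_inf {v w : List (α × Bool)} (hv : v <:+: w) (h : Occ w) : Occ v := by
  obtain ⟨φ, i, h1, h2⟩ := h
  exact ⟨φ, i, hv.trans h1, h2⟩

/-- for ranks at least two the set of words occurring in cyclically reduced primitive words is
primitive recursive -/
theorem primrec_occ {r : ℕ} [Nontrivial (Fin r)] :
    PrimrecPred (fun v : List (Fin r × Bool) => Occ v) := by
  have h := (prim_gpred_fintype (Λ := Fin r × Bool) (M := MM (Fin r)) (T := TT (Fin r))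
    (fun (m : MM (Fin r)) y z => β m.1 m.2 y z) adm (fun m T => δ m.1 m.2 T)
      (mvs (Fin r)) (fun c => ({(c, c)} : TT (Fin r))) (lets (Fin r))
      (Fintype.card (Fin r × Bool)) (Fintype.card (TT (Fin r))))
  exact h.of_eq (fun v => by rw [occ_iff_search])

end Pool.Agent.Lib_4426b5
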